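import Mathlib

/-!
# No maximal geometrically nilpotent subvariety in general

For every finite field `F` we exhibit a polynomial self-map `T` of affine 3-space over `F`
such that no geometrically nilpotent subvariety `Y` is maximal in the sense asked.
-/

open MvPolynomial

namespace Pool.Agent.Results.MP_b41bf9_ag.NoMaximalNilpotent

universe u

/-- Geometric points of affine `n`-space over `F`. -/
abbrev Pts (F : Type u) [Field F] (n : ℕ) : Type u := Fin n → AlgebraicClosure F

/-- `Y` is the set of geometric points of a closed subvariety of affine `n`-space that is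
defined over `K`: the set of common zeros of a set of polynomials with coefficients in `K`. -/
def IsClosedOver (F : Type u) [Field F] (K : Type u) [Field K] [Algebra K (AlgebraicClosure F)]
    {n : ℕ} (Y : Set (Pts F n)) : Prop :=
  ∃ I : Set (MvPolynomial (Fin n) K), Y = {y | ∀ f ∈ I, aeval y f = 0}

/-- `C` is a nonempty closed set defined over `K` that is irreducible over `K`. -/
def IsIrreducibleOver (F : Type u) [Field F] (K : Type u) [Field K]
    [Algebra K (AlgebraicClosure F)] {n : ℕ} (C : Set (Pts F n)) : Prop :=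
  C.Nonempty ∧ IsClosedOver F K C ∧
    ∀ A B : Set (Pts F n), IsClosedOver F K A → IsClosedOver F K B → C ⊆ A ∪ B → C ⊆ A ∨ C ⊆ B

/-- `C` is an irreducible component (over `K`) of `Y`: a maximal irreducible closed subset. -/
def IsComponentOver (F : Type u) [Field F] (K : Type u) [Field K]
    [Algebra K (AlgebraicClosure F)] {n : ℕ} (Y C : Set (Pts F n)) : Prop :=
  IsIrreducibleOver F K C ∧ C ⊆ Y ∧
    ∀ D : Set (Pts F n), IsIrreducibleOver F K D → D ⊆ Y → C ⊆ D → D = C

/-- The self-map of the geometric points of affine `n`-space given by `n` polynomials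
over `F`. -/
noncomputable def polyMap {F : Type u} [Field F] {n : ℕ} (T : Fin n → MvPolynomial (Fin n) F) :
    Pts F n → Pts F n :=
  fun y i => aeval y (T i)

/-- `Y` is a geometrically nilpotent subvariety (defined over `F`, possibly empty or reducible)
for `T`, the irreducible components being taken over `K`. -/
def GeomNilpotent {F : Type u} [Field F] (K : Type u) [Field K]
    [Algebra K (AlgebraicClosure F)] {n : ℕ}
    (T : Fin n → MvPolynomial (Fin n) F) (Y : Set (Pts F n)) : Prop :=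
  IsClosedOver F F Y ∧ ∀ C : Set (Pts F n), IsComponentOver F K Y C →
    ∃ P : Pts F n, polyMap T P = P ∧ ∀ y ∈ C, ∃ k : ℕ, 1 ≤ k ∧ (polyMap T)^[k] y = P

section aux

variable {F : Type u} [Field F]

/-- the map `T(x,y,z) = x z (y - z) * (x z, x y, z^2)` -/
noncomputable def T0 (F : Type u) [Field F] : Fin 3 → MvPolynomial (Fin 3) F :=
  ![X 0 * X 2 * (X 1 - X 2) * (X 0 * X 2), X 0 * X 2 * (X 1 - X 2) * (X 0 * X 1),
    X 0 * X 2 * (X 1 - X 2) * (X 2 * X 2)]

/-- the point `(u z, v z, z)` -/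
def pt {Ω : Type*} [Field Ω] (a b c : Ω) : Fin 3 → Ω := ![a * c, b * c, c]

theorem T0_apply (y : Pts F 3) :
    polyMap (T0 F) y = ![y 0 * y 2 * (y 1 - y 2) * (y 0 * y 2),
      y 0 * y 2 * (y 1 - y 2) * (y 0 * y 1), y 0 * y 2 * (y 1 - y 2) * (y 2 * y 2)] := by
  funext i
  fin_cases i <;> simp [polyMap, T0]

theorem T0_pt (a b c : AlgebraicClosure F) :
    polyMap (T0 F) (pt a b c) = pt a (a * b) (a * (b - 1) * c ^ 5) := by
  rw [T0_apply]
  funext i
  fin_cases i <;> simp [pt] <;> ring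

/-- the coefficient of the third coordinate of the iterates -/
def cf {Ω : Type*} [Field Ω] (a b : Ω) : ℕ → Ω
  | 0 => 1
  | (k + 1) => a * (a ^ k * b - 1) * (cf a b k) ^ 5

theorem T0_iter_pt (a b c : AlgebraicClosure F) (k : ℕ) :
    (polyMap (T0 F))^[k] (pt a b c) = pt a (a ^ k * b) (cf a b k * c ^ (5 ^ k)) := by
  induction k with
  | zero => simp [cf]
  | succ k ih =>
    rw [Function.iterate_succ_apply', ih, T0_pt, cf]
    congr 1
    · ring
    · rw [pow_succ 5 k, pow_mul]; ring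

theorem T0_zero_of (y : Pts F 3) (h : y 0 = 0 ∨ y 2 = 0 ∨ y 1 = y 2) :
    polyMap (T0 F) y = 0 := by
  rw [T0_apply]
  funext i
  rcases h with h | h | h <;> fin_cases i <;> simp [h]

theorem T0_zero : polyMap (T0 F) (0 : Pts F 3) = 0 := T0_zero_of 0 (Or.inl rfl)

theorem T0_iter_zero (k : ℕ) : (polyMap (T0 F))^[k] (0 : Pts F 3) = 0 := by
  induction k with
  | zero => rfl
  | succ k ih => rw [Function.iterate_succ_apply', ih, T0_zero]

end aux

section surfaces

variable {F : Type u} [Field F]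

/-- the surface `y^q = x z^(q-1)` -/
def surf (F : Type u) [Field F] (q : ℕ) : Set (Pts F 3) :=
  {y | y 1 ^ q = y 0 * y 2 ^ (q - 1)}

theorem surf_closed (q : ℕ) : IsClosedOver F F (surf F q) := by
  refine ⟨{X 1 ^ q - X 0 * X 2 ^ (q - 1)}, ?_⟩
  ext y
  simp [surf, sub_eq_zero]

theorem exists_pow_eq_one [Finite F] (p : ℕ) [hp : Fact p.Prime] [CharP F p] (r : ℕ) (hr : 1 ≤ r)
    (v : AlgebraicClosure F) (hv : v ≠ 0) : ∃ n : ℕ, v ^ (p ^ r * n + 1) = 1 := by
  have hint : IsIntegral F v := Algebra.IsIntegral.isIntegral v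
  let K := IntermediateField.adjoin F {v}
  have : FiniteDimensional F K := IntermediateField.adjoin.finiteDimensional hint
  have : Finite K := Module.finite_of_finite F
  have := Fintype.ofFinite K
  have : CharP K p := charP_of_injective_algebraMap (algebraMap F K).injective p
  obtain ⟨j, hj⟩ := FiniteField.card K p
  have hmem : v ∈ K := IntermediateField.mem_adjoin_simple_self F v
  have h1 : v ^ ((p ^ (j : ℕ)) ^ r) = v := by
    have h2 := FiniteField.pow_card_pow (K := K) r (⟨v, hmem⟩ : K)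
    have h3 := congrArg (Subtype.val) h2
    rw [hj.2] at h3
    simpa using h3
  obtain ⟨t, ht⟩ : ∃ t, (j : ℕ) * r = r + t := by
    have : r ≤ (j : ℕ) * r := Nat.le_mul_of_pos_left r j.pos
    exact ⟨(j : ℕ) * r - r, by omega⟩
  set Q := p ^ r * p ^ t with hQ
  have hQ1 : (p ^ (j : ℕ)) ^ r = Q := by
    rw [← pow_mul, ht, pow_add]
  rw [hQ1] at h1
  have hQ2 : 2 ≤ Q := by
    have h4 : 2 ≤ p := hp.out.two_le
    have h5 : p ≤ p ^ r := Nat.le_self_pow (by omega) p
    have h6 : 1 ≤ p ^ t := Nat.one_le_pow _ _ (by omega)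
    calc 2 ≤ p ^ r * 1 := by omega
      _ ≤ Q := Nat.mul_le_mul_left _ h6
  obtain ⟨m, hm⟩ : ∃ m, Q = m + 2 := ⟨Q - 2, by omega⟩
  have h7 : v ^ (m + 1) = 1 := by
    have : v ^ (m + 1) * v = 1 * v := by
      rw [← pow_succ, one_mul]
      rw [hm] at h1
      exact h1
    exact mul_right_cancel₀ hv this
  refine ⟨p ^ t * m, ?_⟩
  have : p ^ r * (p ^ t * m) + 1 = (m + 1) * (m + 1) := by
    rw [← mul_assoc, ← hQ, hm]; ring
  rw [this, pow_mul, h7, one_pow]

theorem surf_nilp [Finite F] (p : ℕ) [hp : Fact p.Prime] [CharP F p] (r : ℕ) (hr : 1 ≤ r)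
    (y : Pts F 3) (hy : y ∈ surf F (p ^ r)) : ∃ k : ℕ, 1 ≤ k ∧ (polyMap (T0 F))^[k] y = 0 := by
  by_cases h0 : y 0 = 0
  · exact ⟨1, le_refl _, T0_zero_of y (Or.inl h0)⟩
  by_cases h2 : y 2 = 0
  · exact ⟨1, le_refl _, T0_zero_of y (Or.inr (Or.inl h2))⟩
  have hyp : y = pt (y 0 / y 2) (y 1 / y 2) (y 2) := by
    funext i
    fin_cases i <;> simp [pt, h2]
  have hq : 1 ≤ p ^ r := Nat.one_le_pow _ _ hp.out.pos
  have hv : (y 1 / y 2) ^ (p ^ r) = y 0 / y 2 := by
    have h3 : y 1 ^ (p ^ r) = y 0 * y 2 ^ (p ^ r - 1) := hy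
    rw [div_pow, h3]
    obtain ⟨m, hm⟩ : ∃ m, p ^ r = m + 1 := ⟨p ^ r - 1, by omega⟩
    rw [hm, Nat.add_sub_cancel, pow_succ]
    field_simp
  have hv0 : y 1 / y 2 ≠ 0 := by
    intro h
    rw [h, zero_pow (by omega)] at hv
    exact (div_ne_zero h0 h2) hv.symm
  obtain ⟨n, hn⟩ := exists_pow_eq_one (F := F) p r hr _ hv0
  refine ⟨n + 1, by omega, ?_⟩
  rw [Function.iterate_succ_apply', hyp, T0_iter_pt]
  apply T0_zero_of
  right; right
  have : (y 0 / y 2) ^ n * (y 1 / y 2) = 1 := by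
    rw [← hv, ← pow_mul, ← pow_succ]; exact hn
  simp [pt, this]

theorem surf_geomNilpotent [Finite F] (p : ℕ) [hp : Fact p.Prime] [CharP F p] (r : ℕ)
    (hr : 1 ≤ r) (K : Type u) [Field K] [Algebra K (AlgebraicClosure F)] :
    GeomNilpotent K (T0 F) (surf F (p ^ r)) :=
  ⟨surf_closed _, fun _ hC => ⟨0, T0_zero, fun y hy => surf_nilp p r hr y (hC.2.1 hy)⟩⟩

end surfaces

section notAll

variable {F : Type u} [Field F]

theorem orbit_ne_zero (k : ℕ) : ∃ e : AlgebraicClosure F, e ≠ 0 ∧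
    (polyMap (T0 F))^[k] (pt 1 0 1) = pt 1 0 e := by
  induction k with
  | zero => exact ⟨1, one_ne_zero, rfl⟩
  | succ k ih =>
    obtain ⟨e, he, h⟩ := ih
    refine ⟨1 * (0 - 1) * e ^ 5, ?_, ?_⟩
    · simp [he]
    · rw [Function.iterate_succ_apply', h, T0_pt, mul_zero]

theorem irred_univ (K : Type u) [Field K] [Algebra K (AlgebraicClosure F)] :
    IsIrreducibleOver F K (Set.univ : Set (Pts F 3)) := by
  refine ⟨Set.univ_nonempty, ⟨∅, by simp⟩, ?_⟩
  rintro A B ⟨I, rfl⟩ ⟨J, rfl⟩ h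
  by_contra hcon
  push Not at hcon
  obtain ⟨hA, hB⟩ := hcon
  obtain ⟨a, -, ha⟩ := Set.not_subset.mp hA
  obtain ⟨b, -, hb⟩ := Set.not_subset.mp hB
  simp only [Set.mem_ofPred_eq, not_forall] at ha hb
  obtain ⟨f, hf, hfa⟩ := ha
  obtain ⟨g, hg, hgb⟩ := hb
  have hprod : (MvPolynomial.map (algebraMap K (AlgebraicClosure F)) f) *
      (MvPolynomial.map (algebraMap K (AlgebraicClosure F)) g) = 0 := by
    apply MvPolynomial.funext
    intro y
    rcases h (Set.mem_univ y) with hy | hy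
    · have := hy f hf
      rw [map_mul, eval_map, ← aeval_def, this, zero_mul, map_zero]
    · have := hy g hg
      rw [map_mul, eval_map, eval_map, ← aeval_def, ← aeval_def, this, mul_zero, map_zero]
  rcases mul_eq_zero.mp hprod with h1 | h1
  · apply hfa
    rw [aeval_def, ← eval_map, h1, map_zero]
  · apply hgb
    rw [aeval_def, ← eval_map, h1, map_zero]

theorem ne_univ_of_geomNilpotent (K : Type u) [Field K] [Algebra K (AlgebraicClosure F)]
    (Y : Set (Pts F 3)) (hY : GeomNilpotent K (T0 F) Y) : Y ≠ Set.univ := by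
  rintro rfl
  obtain ⟨P, -, hP⟩ := hY.2 Set.univ ⟨irred_univ K, subset_rfl, fun D _ _ h =>
    Set.univ_subset_iff.mp h⟩
  obtain ⟨k, -, hk⟩ := hP 0 (Set.mem_univ _)
  rw [T0_iter_zero] at hk
  subst hk
  obtain ⟨k, -, hk⟩ := hP (pt 1 0 1) (Set.mem_univ _)
  obtain ⟨e, he, h⟩ := orbit_ne_zero (F := F) k
  rw [h] at hk
  have := congrFun hk 2
  simp [pt] at this
  exact he this

end notAll

section main

variable {F : Type u} [Field F]

theorem pt_mem_surf (q : ℕ) (hq : 1 ≤ q) (w z : AlgebraicClosure F) :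
    pt (w ^ q) w z ∈ surf F q := by
  obtain ⟨m, rfl⟩ : ∃ m, q = m + 1 := ⟨q - 1, by omega⟩
  simp only [surf, pt, Nat.add_sub_cancel]
  show (w * z) ^ (m + 1) = w ^ (m + 1) * z * z ^ m
  rw [mul_pow, pow_succ z m]; ring

theorem iter_third_ne_zero (m : ℕ) (y : Pts F 3) (h : ((polyMap (T0 F))^[m] y) 2 ≠ 0) :
    y 2 ≠ 0 := by
  intro hy
  cases m with
  | zero => exact h hy
  | succ m =>
    rw [Function.iterate_succ_apply, T0_zero_of y (Or.inr (Or.inl hy)), T0_iter_zero] at h
    exact h rfl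

theorem step1 (q k m : ℕ) (hq : 1 ≤ q) (Y : Set (Pts F 3))
    (h : surf F q ⊆ (polyMap (T0 F))^[k] ⁻¹' ((polyMap (T0 F))^[m] '' Y))
    (w : AlgebraicClosure F) (hw : w ≠ 0) (hc : cf (w ^ q) w k ≠ 0) (z : AlgebraicClosure F)
    (hz : z ≠ 0) :
    ∃ c : AlgebraicClosure F, pt (w ^ q) (w ^ (q * k + 1) / w ^ (q * m)) c ∈ Y ∧
      cf (w ^ q) (w ^ (q * k + 1) / w ^ (q * m)) m * c ^ (5 ^ m) =
        cf (w ^ q) w k * z ^ (5 ^ k) := by
  obtain ⟨y, hyY, hy⟩ := h (pt_mem_surf q hq w z)
  rw [T0_iter_pt] at hy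
  have hz' : cf (w ^ q) w k * z ^ (5 ^ k) ≠ 0 := mul_ne_zero hc (pow_ne_zero _ hz)
  have hy2 : y 2 ≠ 0 := by
    apply iter_third_ne_zero m
    rw [hy]
    simpa [pt] using hz'
  have hyp : y = pt (y 0 / y 2) (y 1 / y 2) (y 2) := by
    funext i
    fin_cases i <;> simp [pt, hy2]
  rw [hyp, T0_iter_pt] at hy
  have e2 : cf (y 0 / y 2) (y 1 / y 2) m * (y 2) ^ (5 ^ m) = cf (w ^ q) w k * z ^ (5 ^ k) := by
    have := congrFun hy 2
    simpa [pt] using this
  have e0 : y 0 / y 2 = w ^ q := by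
    have := congrFun hy 0
    simp only [pt, Matrix.cons_val_zero] at this
    rw [e2] at this
    exact mul_right_cancel₀ hz' this
  have e1 : (y 0 / y 2) ^ m * (y 1 / y 2) = (w ^ q) ^ k * w := by
    have := congrFun hy 1
    simp only [pt, Matrix.cons_val_one, Matrix.cons_val_zero] at this
    rw [e2] at this
    exact mul_right_cancel₀ hz' this
  have e3 : y 1 / y 2 = w ^ (q * k + 1) / w ^ (q * m) := by
    rw [e0] at e1
    rw [eq_div_iff (pow_ne_zero _ hw), pow_succ, pow_mul, pow_mul, ← e1]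
    ring
  refine ⟨y 2, ?_, ?_⟩
  · rw [← e3, ← e0, ← hyp]; exact hyY
  · rw [← e3, ← e0, e2]; rw [e0]

theorem step3 (q k m : ℕ) (hq : 1 ≤ q) (Y : Set (Pts F 3)) (f : MvPolynomial (Fin 3) F)
    (hf : ∀ y ∈ Y, aeval y f = 0)
    (h : surf F q ⊆ (polyMap (T0 F))^[k] ⁻¹' ((polyMap (T0 F))^[m] '' Y))
    (w : AlgebraicClosure F) (hw : w ≠ 0) (hc : cf (w ^ q) w k ≠ 0) (c : AlgebraicClosure F) :
    aeval (pt (w ^ q) (w ^ (q * k + 1) / w ^ (q * m)) c) f = 0 := by
  set v := w ^ (q * k + 1) / w ^ (q * m) with hv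
  set P : Polynomial (AlgebraicClosure F) :=
    aeval ![Polynomial.C (w ^ q) * Polynomial.X, Polynomial.C v * Polynomial.X, Polynomial.X] f
    with hP
  have hPe : ∀ c : AlgebraicClosure F, Polynomial.eval c P = aeval (pt (w ^ q) v c) f := by
    intro c
    have h1 : Polynomial.eval c P = (Polynomial.aeval c).restrictScalars F P := by
      simp [Polynomial.aeval_def, Polynomial.eval₂_eq_eval_map]
    rw [h1, hP, ← AlgHom.comp_apply, comp_aeval]
    congr 2
    funext i
    fin_cases i <;> simp [pt]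
  have hinf : Set.Infinite {c : AlgebraicClosure F | P.IsRoot c} := by
    intro hfin
    have himg := hfin.image (fun c => cf (w ^ q) v m * c ^ (5 ^ m))
    have hsub : ({0}ᶜ : Set (AlgebraicClosure F)) ⊆
        (fun c => cf (w ^ q) v m * c ^ (5 ^ m)) '' {c : AlgebraicClosure F | P.IsRoot c} := by
      intro t ht
      have ht0 : t ≠ 0 := ht
      obtain ⟨z, hz⟩ := IsAlgClosed.exists_pow_nat_eq (t / cf (w ^ q) w k)
        (show 0 < 5 ^ k by positivity)
      have hz0 : z ≠ 0 := by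
        rintro rfl
        rw [zero_pow (by positivity)] at hz
        exact (div_ne_zero ht0 hc) hz.symm
      obtain ⟨c, hcY, hcc⟩ := step1 q k m hq Y h w hw hc z hz0
      refine ⟨c, ?_, ?_⟩
      · show Polynomial.eval c P = 0
        rw [hPe]
        exact hf _ hcY
      · show cf (w ^ q) v m * c ^ (5 ^ m) = t
        rw [hcc, hz]
        field_simp
    exact (Set.finite_singleton (0 : AlgebraicClosure F)).infinite_compl (himg.subset hsub)
  have hP0 : P = 0 := Polynomial.eq_zero_of_infinite_isRoot P hinf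
  rw [← hPe, hP0, Polynomial.eval_zero]

theorem infinite_good (q k : ℕ) :
    Set.Infinite {w : AlgebraicClosure F | w ≠ 0 ∧ cf (w ^ q) w k ≠ 0} := by
  classical
  have hfin : Set.Finite ({(0 : AlgebraicClosure F)} ∪
      ⋃ j ∈ Finset.range k, {w : AlgebraicClosure F | w ^ (q * j + 1) = 1}) := by
    apply (Set.finite_singleton _).union
    apply Set.Finite.biUnion (Finset.finite_toSet _)
    intro j _
    have : {w : AlgebraicClosure F | w ^ (q * j + 1) = 1} ⊆
        ((Polynomial.nthRoots (q * j + 1) (1 : AlgebraicClosure F)).toFinset : Set _) := by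
      intro w hw
      simp only [Finset.mem_coe, Multiset.mem_toFinset]
      exact (Polynomial.mem_nthRoots (by omega)).mpr hw
    exact (Finset.finite_toSet _).subset this
  apply hfin.infinite_compl.mono
  intro w hw
  simp only [Set.mem_compl_iff, Set.mem_union, Set.mem_singleton_iff, Set.mem_iUnion,
    Finset.mem_range, not_or, not_exists] at hw
  refine ⟨hw.1, ?_⟩
  have key : ∀ j ≤ k, cf (w ^ q) w j ≠ 0 := by
    intro j
    induction j with
    | zero => intro _; simp [cf]
    | succ j ih =>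
      intro hj
      rw [cf]
      refine mul_ne_zero (mul_ne_zero (pow_ne_zero _ hw.1) ?_) (pow_ne_zero _ (ih (by omega)))
      rw [sub_ne_zero, ← pow_mul, ← pow_succ]
      exact hw.2 j (by omega)
  exact key k le_rfl

theorem exponent_inj (q k m d : ℕ) (hd : d < q) (a a' : Fin 3 → ℕ)
    (ha : ∀ i, a i ≤ d) (ha' : ∀ i, a' i ≤ d)
    (M : ℕ) (hM : d * (q * (m + 1)) + d * (q * k + 1) + d * (q * m) < M)
    (h : a 0 * (q * (m + 1) + M) + a 1 * (q * k + 1 + M) + a 2 * (q * m + M) =
      a' 0 * (q * (m + 1) + M) + a' 1 * (q * k + 1 + M) + a' 2 * (q * m + M)) : a = a' := by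
  have hE : ∀ b : Fin 3 → ℕ, (∀ i, b i ≤ d) →
      b 0 * (q * (m + 1)) + b 1 * (q * k + 1) + b 2 * (q * m) < M := by
    intro b hb
    have h0 := Nat.mul_le_mul_right (q * (m + 1)) (hb 0)
    have h1 := Nat.mul_le_mul_right (q * k + 1) (hb 1)
    have h2 := Nat.mul_le_mul_right (q * m) (hb 2)
    omega
  have hEa := hE a ha
  have hEa' := hE a' ha'
  set E := a 0 * (q * (m + 1)) + a 1 * (q * k + 1) + a 2 * (q * m) with hEdef
  set E' := a' 0 * (q * (m + 1)) + a' 1 * (q * k + 1) + a' 2 * (q * m) with hEdef'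
  have h' : E + M * (a 0 + a 1 + a 2) = E' + M * (a' 0 + a' 1 + a' 2) := by
    rw [hEdef, hEdef']
    nlinarith [h]
  have hEE : E = E' := by
    have := congrArg (· % M) h'
    simpa [Nat.add_mul_mod_self_left, Nat.mod_eq_of_lt hEa, Nat.mod_eq_of_lt hEa'] using this
  have hM0 : 0 < M := by omega
  have hsum : a 0 + a 1 + a 2 = a' 0 + a' 1 + a' 2 := by
    rw [hEE] at h'
    exact Nat.eq_of_mul_eq_mul_left hM0 (Nat.add_left_cancel h')
  have h1 : a 1 + q * (a 0 * (m + 1) + a 1 * k + a 2 * m) =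
      a' 1 + q * (a' 0 * (m + 1) + a' 1 * k + a' 2 * m) := by
    have e1 : a 1 + q * (a 0 * (m + 1) + a 1 * k + a 2 * m) = E := by rw [hEdef]; ring
    have e2 : a' 1 + q * (a' 0 * (m + 1) + a' 1 * k + a' 2 * m) = E' := by rw [hEdef']; ring
    rw [e1, e2, hEE]
  have hq0 : 0 < q := by omega
  have h11 : a 1 = a' 1 := by
    have := congrArg (· % q) h1
    simpa [Nat.add_mul_mod_self_left, Nat.mod_eq_of_lt (lt_of_le_of_lt (ha 1) hd),
      Nat.mod_eq_of_lt (lt_of_le_of_lt (ha' 1) hd)] using this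
  rw [h11] at h1
  have h2 := Nat.eq_of_mul_eq_mul_left hq0 (Nat.add_left_cancel h1)
  have h3 : a 0 + a 2 = a' 0 + a' 2 := by omega
  have h4 : a 0 + m * (a 0 + a 2) = a' 0 + m * (a' 0 + a' 2) := by nlinarith [h2]
  have h5 : a 0 = a' 0 := by rw [h3] at h4; omega
  have h6 : a 2 = a' 2 := by omega
  funext i
  fin_cases i
  · exact h5
  · exact h11
  · exact h6

theorem main_step (q k m : ℕ) (Y : Set (Pts F 3)) (f : MvPolynomial (Fin 3) F)
    (hf0 : f ≠ 0) (hfq : f.totalDegree < q) (hf : ∀ y ∈ Y, aeval y f = 0) :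
    ¬ surf F q ⊆ (polyMap (T0 F))^[k] ⁻¹' ((polyMap (T0 F))^[m] '' Y) := by
  intro h
  have hq : 1 ≤ q := by omega
  set d := f.totalDegree with hd
  obtain ⟨M, hM⟩ : ∃ M, d * (q * (m + 1)) + d * (q * k + 1) + d * (q * m) < M := ⟨_, Nat.lt_succ_self _⟩
  set G : Polynomial (AlgebraicClosure F) :=
    aeval ![Polynomial.X ^ (q * (m + 1) + M), Polynomial.X ^ (q * k + 1 + M),
      Polynomial.X ^ (q * m + M)] f with hG
  have hGe : ∀ w : AlgebraicClosure F, Polynomial.eval w G =
      aeval ![w ^ (q * (m + 1) + M), w ^ (q * k + 1 + M), w ^ (q * m + M)] f := by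
    intro w
    have h1 : Polynomial.eval w G = (Polynomial.aeval w).restrictScalars F G := by
      simp [Polynomial.aeval_def, Polynomial.eval₂_eq_eval_map]
    rw [h1, hG, ← AlgHom.comp_apply, comp_aeval]
    congr 2
    funext i
    fin_cases i <;> simp
  have hG0 : G = 0 := by
    apply Polynomial.eq_zero_of_infinite_isRoot
    apply (infinite_good (F := F) q k).mono
    rintro w ⟨hw, hc⟩
    have h1 := step3 q k m hq Y f hf h w hw hc (w ^ (q * m) * w ^ M)
    show Polynomial.eval w G = 0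
    rw [hGe, ← h1]
    congr 2
    funext i
    fin_cases i
    · simp [pt]; ring
    · simp [pt]; field_simp; ring
    · simp [pt]; ring
  obtain ⟨s, hs⟩ := MvPolynomial.support_nonempty.mpr hf0
  set e : (Fin 3 →₀ ℕ) → ℕ := fun s => s 0 * (q * (m + 1) + M) + s 1 * (q * k + 1 + M) +
    s 2 * (q * m + M) with he
  have hGsum : G = ∑ t ∈ f.support, Polynomial.C (algebraMap F (AlgebraicClosure F) (coeff t f)) *
      Polynomial.X ^ (e t) := by
    rw [hG, aeval_def, eval₂_eq']
    apply Finset.sum_congr rfl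
    intro t _
    rw [Fin.prod_univ_three]
    simp only [Matrix.cons_val_zero, Matrix.cons_val_one, Matrix.cons_val]
    rw [← pow_mul, ← pow_mul, ← pow_mul, ← pow_add, ← pow_add, Polynomial.algebraMap_apply]
    congr 2
    rw [he]; ring
  have hle : ∀ t ∈ f.support, ∀ i, t i ≤ d := by
    intro t ht i
    have h1 := MvPolynomial.le_totalDegree ht
    have h2 : t i ≤ t.sum fun _ e => e := by
      rw [Finsupp.sum_fintype _ _ (by simp)]
      exact Finset.single_le_sum (f := fun i => t i) (fun _ _ => Nat.zero_le _) (Finset.mem_univ i)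
    exact h2.trans h1
  have hcoeff : Polynomial.coeff G (e s) = algebraMap F (AlgebraicClosure F) (coeff s f) := by
    rw [hGsum, Polynomial.finsetSum_coeff]
    rw [Finset.sum_eq_single s]
    · simp
    · intro t ht hts
      rw [Polynomial.coeff_C_mul, Polynomial.coeff_X_pow, if_neg, mul_zero]
      intro heq
      apply hts
      apply Finsupp.ext
      intro i
      have := exponent_inj q k m d hfq s t (hle s hs) (hle t ht) M hM heq
      exact (congrFun this i).symm
    · intro hns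
      exact absurd hs hns
  rw [hG0, Polynomial.coeff_zero] at hcoeff
  have : coeff s f = 0 := by
    apply (algebraMap F (AlgebraicClosure F)).injective
    rw [← hcoeff, map_zero]
  exact (MvPolynomial.mem_support_iff.mp hs) this

end main

/-- For every finite field `F` there is a polynomial self-map `T` of affine 3-space over `F`
such that for every geometrically nilpotent subvariety `Y` there is a geometrically nilpotent
subvariety `Z` whose geometric points do not lie in `(T^k)⁻¹(T^m(Y))` for any `k, m ≥ 0`.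
The irreducible components of `Y` and `Z` may be taken over any intermediate field
`F ⊆ K ⊆ F̄`. -/
theorem result (F : Type u) [Field F] [Finite F] :
    ∃ T : Fin 3 → MvPolynomial (Fin 3) F,
      ∀ K : IntermediateField F (AlgebraicClosure F),
        ∀ Y : Set (Pts F 3), GeomNilpotent K T Y →
          ∃ Z : Set (Pts F 3), GeomNilpotent K T Z ∧
            ∀ k m : ℕ, ¬ Z ⊆ (polyMap T)^[k] ⁻¹' ((polyMap T)^[m] '' Y) := by
  refine ⟨T0 F, fun K Y hY => ?_⟩
  obtain ⟨p, hp⟩ := CharP.exists F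
  have hpp : p.Prime := CharP.char_is_prime F p
  have : Fact p.Prime := ⟨hpp⟩
  have hne := ne_univ_of_geomNilpotent K Y hY
  obtain ⟨I, hI⟩ := hY.1
  obtain ⟨f, hfI, hf0⟩ : ∃ f ∈ I, f ≠ 0 := by
    by_contra hcon
    push Not at hcon
    apply hne
    rw [hI]
    ext y
    simp only [Set.mem_ofPred_eq, Set.mem_univ, iff_true]
    intro f hf
    rw [hcon f hf, map_zero]
  have hf : ∀ y ∈ Y, aeval y f = 0 := by
    intro y hy
    rw [hI] at hy
    exact hy f hfI
  have hlt : f.totalDegree < p ^ (f.totalDegree + 1) :=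
    lt_trans (Nat.lt_succ_self _) (Nat.lt_pow_self hpp.one_lt)
  exact ⟨surf F (p ^ (f.totalDegree + 1)),
    surf_geomNilpotent p (f.totalDegree + 1) (by omega) K,
    fun k m => main_step _ k m Y f hf0 hlt hf⟩

end Pool.Agent.Results.MP_b41bf9_ag.NoMaximalNilpotent
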